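import Mathlib

set_option autoImplicit false

/-! # Three quadrants theorem: the core

Random colourings with three labels, built vertex by vertex along a rank function `r`, for a graph
whose vertices also carry an injective coordinate `x`. -/

namespace Pool.Agent.Helper12.QD

open Finset

/-- indicator of a proposition -/
noncomputable def ind (P : Prop) : ℝ := @ite _ P (Classical.dec P) 1 0

lemma ind_pos {P : Prop} (h : P) : ind P = 1 := by
  unfold ind; exact if_pos h

lemma ind_neg {P : Prop} (h : ¬ P) : ind P = 0 := by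
  unfold ind; exact if_neg h

lemma ind_nonneg (P : Prop) : 0 ≤ ind P := by
  by_cases h : P
  · rw [ind_pos h]; norm_num
  · rw [ind_neg h]

lemma ind_congr {P Q : Prop} (h : P ↔ Q) : ind P = ind Q := by
  rw [propext h]

lemma ind_and (P Q : Prop) : ind (P ∧ Q) = ind P * ind Q := by
  by_cases h : P
  · by_cases h' : Q
    · rw [ind_pos ⟨h, h'⟩, ind_pos h, ind_pos h']; norm_num
    · rw [ind_neg (fun e => h' e.2), ind_neg h']; norm_num
  · rw [ind_neg (fun e => h e.1), ind_neg h]; norm_num

/-! ## The coupling lemma -/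

lemma coupling_id (b l : Fin 3 → ℝ) (hb0 : ∀ i, 0 ≤ b i) (hl0 : ∀ i, 0 ≤ l i)
    (hb1 : ∑ i, b i = 1) (hl1 : ∑ i, l i = 1) (h : ∀ i, b i + l i ≤ 1) :
    ∃ J : Fin 3 → Fin 3 → ℝ, (∀ i j, 0 ≤ J i j) ∧ (∀ i, ∑ j, J i j = b i) ∧
      (∀ i, J i i = 0) ∧ (∀ j, ∑ i, J i j = l j) := by
  rw [Fin.sum_univ_three] at hb1 hl1
  have h0 := h 0
  have h1 := h 1
  have h2 := h 2
  have b0 := hb0 0
  have b1 := hb0 1
  have b2 := hb0 2
  have l0 := hl0 0
  have l1 := hl0 1
  have l2 := hl0 2
  obtain ⟨s, s0, s1, s2, s3, s4, s5⟩ : ∃ s : ℝ, 0 ≤ s ∧ l 1 - b 2 ≤ s ∧ b 0 - l 2 ≤ s ∧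
      s ≤ b 0 ∧ s ≤ l 1 ∧ s ≤ 1 - l 2 - b 2 := by
    refine ⟨max 0 (max (l 1 - b 2) (b 0 - l 2)), le_max_left _ _,
      le_trans (le_max_left _ _) (le_max_right _ _),
      le_trans (le_max_right _ _) (le_max_right _ _), ?_, ?_, ?_⟩
    · apply max_le b0 (max_le _ _) <;> linarith
    · apply max_le l1 (max_le _ _) <;> linarith
    · apply max_le (by linarith) (max_le _ _) <;> linarith
  refine ⟨![![0, s, b 0 - s], ![l 0 + l 1 - b 2 - s, 0, b 1 + b 2 - l 0 - l 1 + s],
    ![b 2 - l 1 + s, l 1 - s, 0]], ?_, ?_, ?_, ?_⟩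
  · intro i j
    fin_cases i <;> fin_cases j <;> simp <;> linarith
  · intro i
    rw [Fin.sum_univ_three]
    fin_cases i <;> simp <;> ring
  · intro i
    fin_cases i <;> simp
  · intro j
    rw [Fin.sum_univ_three]
    fin_cases j <;> simp <;> linarith

/-- a probability vector `b` and a probability vector `l` can be coupled so that the pairs
`(i, σ i)` have probability zero, as soon as `b i + l (σ i) ≤ 1`; `κ i` is the conditional law of
the second coordinate. -/
theorem coupling (b l : Fin 3 → ℝ) (σ : Equiv.Perm (Fin 3)) (hb0 : ∀ i, 0 ≤ b i)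
    (hl0 : ∀ i, 0 ≤ l i) (hb1 : ∑ i, b i = 1) (hl1 : ∑ i, l i = 1)
    (h : ∀ i, b i + l (σ i) ≤ 1) :
    ∃ κ : Fin 3 → Fin 3 → ℝ, (∀ i j, 0 ≤ κ i j) ∧ (∀ i, ∑ j, κ i j = 1) ∧
      (∀ i, κ i (σ i) = 0) ∧ (∀ j, ∑ i, b i * κ i j = l j) := by
  classical
  obtain ⟨J, J0, Jb, Jd, Jl⟩ := coupling_id b (fun i => l (σ i)) hb0 (fun i => hl0 _) hb1
    (by rw [Equiv.sum_comp σ l]; exact hl1) h
  set K : Fin 3 → Fin 3 → ℝ := fun i j =>
    if b i = 0 then (if i = j then 0 else 1 / 2) else J i j / b i with hK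
  have K0 : ∀ i j, 0 ≤ K i j := by
    intro i j
    simp only [hK]
    split_ifs
    · exact le_rfl
    · norm_num
    · exact div_nonneg (J0 i j) (hb0 i)
  have K1 : ∀ i, ∑ j, K i j = 1 := by
    intro i
    by_cases hi : b i = 0
    · simp only [hK, hi, if_true]
      rw [Fin.sum_univ_three]
      fin_cases i <;> simp <;> norm_num
    · simp only [hK, hi, if_false]
      rw [← Finset.sum_div, Jb, div_self hi]
  have Kd : ∀ i, K i i = 0 := by
    intro i
    simp only [hK]
    split_ifs
    · rfl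
    · rw [Jd]; simp
  have Kl : ∀ j, ∑ i, b i * K i j = l (σ j) := by
    intro j
    rw [← Jl j]
    refine Finset.sum_congr rfl fun i _ => ?_
    by_cases hi : b i = 0
    · have h1 : ∑ j, J i j = 0 := by rw [Jb, hi]
      have h2 : J i j = 0 := by
        have := (Finset.sum_eq_zero_iff_of_nonneg (fun j _ => J0 i j)).1 h1 j (Finset.mem_univ j)
        exact this
      rw [h2, hi, zero_mul]
    · simp only [hK, hi, if_false]
      field_simp
  refine ⟨fun i j => K i (σ.symm j), fun i j => K0 _ _, ?_, ?_, ?_⟩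
  · intro i
    rw [Equiv.sum_comp σ.symm (fun j => K i j)]
    exact K1 i
  · intro i
    simp only [Equiv.symm_apply_apply]
    exact Kd i
  · intro j
    rw [Kl (σ.symm j), Equiv.apply_symm_apply]

/-! ## Laws -/

variable {V : Type} {α : Type} [LinearOrder α]

/-- two colourings agree on the coloured vertices to the left of `u` -/
def Agr (x : V → α) (r : V → ℕ) (k : ℕ) (u : V) (c g : V → Fin 3) : Prop :=
  ∀ w, r w < k → x w < x u → c w = g w

lemma Agr.refl (x : V → α) (r : V → ℕ) (k : ℕ) (u : V) (c : V → Fin 3) : Agr x r k u c c :=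
  fun _ _ _ => rfl

lemma Agr.symm {x : V → α} {r : V → ℕ} {k : ℕ} {u : V} {c g : V → Fin 3}
    (h : Agr x r k u c g) : Agr x r k u g c := fun w h1 h2 => (h w h1 h2).symm

lemma Agr.trans {x : V → α} {r : V → ℕ} {k : ℕ} {u : V} {c g f : V → Fin 3}
    (h : Agr x r k u c g) (h' : Agr x r k u g f) : Agr x r k u c f :=
  fun w h1 h2 => (h w h1 h2).trans (h' w h1 h2)

lemma Agr.mono {x : V → α} {r : V → ℕ} {k : ℕ} {u v : V} {c g : V → Fin 3}
    (h : Agr x r k u c g) (huv : x v ≤ x u) : Agr x r k v c g :=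
  fun w h1 h2 => h w h1 (lt_of_lt_of_le h2 huv)

lemma Agr.congr_left {x : V → α} {r : V → ℕ} {k : ℕ} {u : V} {c c' : V → Fin 3}
    (h : Agr x r k u c c') (g : V → Fin 3) : Agr x r k u c g ↔ Agr x r k u c' g :=
  ⟨fun h' => h.symm.trans h', fun h' => h.trans h'⟩

lemma Agr.congr_right {x : V → α} {r : V → ℕ} {k : ℕ} {u : V} {g g' : V → Fin 3}
    (h : Agr x r k u g g') (c : V → Fin 3) : Agr x r k u c g ↔ Agr x r k u c g' :=
  ⟨fun h' => h'.trans h, fun h' => h'.trans h.symm⟩

section succ

variable {x : V → α} {r : V → ℕ} {k : ℕ} [DecidableEq V]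

lemma agr_succ_of_not (hr : Function.Injective r) {v : V} (hv : r v = k) {u : V}
    (hu : ¬ x v < x u) (c g : V → Fin 3) (j : Fin 3) :
    Agr x r (k + 1) u (Function.update c v j) g ↔ Agr x r k u c g := by
  constructor
  · intro h w h1 h2
    have hw : w ≠ v := by rintro rfl; omega
    have := h w (by omega) h2
    rwa [Function.update_of_ne hw] at this
  · intro h w h1 h2
    have hw : w ≠ v := by rintro rfl; exact hu h2
    have h3 : r w ≠ k := fun h => hw (hr (h.trans hv.symm))
    rw [Function.update_of_ne hw]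
    exact h w (by omega) h2

lemma agr_succ_of (hr : Function.Injective r) {v : V} (hv : r v = k) {u : V}
    (hu : x v < x u) (c g : V → Fin 3) (j : Fin 3) :
    Agr x r (k + 1) u (Function.update c v j) g ↔ (j = g v ∧ Agr x r k u c g) := by
  constructor
  · intro h
    constructor
    · have := h v (by omega) hu
      rwa [Function.update_self] at this
    · intro w h1 h2
      have hw : w ≠ v := by rintro rfl; omega
      have := h w (by omega) h2
      rwa [Function.update_of_ne hw] at this
  · rintro ⟨h0, h⟩ w h1 h2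
    by_cases hw : w = v
    · subst hw
      rw [Function.update_self]; exact h0
    · have h3 : r w ≠ k := fun h => hw (hr (h.trans hv.symm))
      rw [Function.update_of_ne hw]
      exact h w (by omega) h2

end succ

/-- a random colouring of the vertices of rank less than `k`. The constraint along an edge `uv`
with `r u < r v` is `c v ≠ m u v (c u)`. -/
structure QLaw (G : SimpleGraph V) (x : V → α) (r : V → ℕ) (m : V → V → Equiv.Perm (Fin 3))
    (k : ℕ) where
  Ω : Type
  fin : Fintype Ω
  p : Ω → ℝ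
  c : Ω → V → Fin 3
  pos : ∀ ω, 0 ≤ p ω
  one : ∑ ω, p ω = 1
  proper : ∀ ω u v, p ω ≠ 0 → G.Adj u v → r u < r v → r v < k → c ω v ≠ m u v (c ω u)
  unif : ∀ v, r v < k → ∀ y, ∑ ω, p ω * ind (c ω v = y) = 1 / 3
  fresh : ∀ u, r u < k → (∀ w, G.Adj u w → r u < r w → r w < k → ¬ x w < x u) → ∀ y g,
    ∑ ω, p ω * (ind (c ω u = y) * ind (Agr x r k u (c ω) g)) ≤
      1 / 2 * ∑ ω, p ω * ind (Agr x r k u (c ω) g)

attribute [instance] QLaw.fin

namespace QLaw

variable {G : SimpleGraph V} {x : V → α} {r : V → ℕ} {m : V → V → Equiv.Perm (Fin 3)} {k : ℕ}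

/-- no colours chosen yet -/
def init (G : SimpleGraph V) (x : V → α) (r : V → ℕ) (m : V → V → Equiv.Perm (Fin 3)) :
    QLaw G x r m 0 where
  Ω := Unit
  fin := inferInstance
  p := fun _ => 1
  c := fun _ _ => 0
  pos := fun _ => zero_le_one
  one := by simp
  proper := fun _ _ _ _ _ _ h => absurd h (Nat.not_lt_zero _)
  unif := fun _ h => absurd h (Nat.not_lt_zero _)
  fresh := fun _ h => absurd h (Nat.not_lt_zero _)

/-- nothing to do -/
def skip (D : QLaw G x r m k) (hk : ∀ v, r v ≠ k) : QLaw G x r m (k + 1) where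
  Ω := D.Ω
  fin := D.fin
  p := D.p
  c := D.c
  pos := D.pos
  one := D.one
  proper := fun ω u v h ha hl hv => D.proper ω u v h ha hl (by have := hk v; omega)
  unif := fun v hv => D.unif v (by have := hk v; omega)
  fresh := by
    intro u hu hf y g
    have h := D.fresh u (by have := hk u; omega) (fun w h1 h2 h3 => hf w h1 h2 (by omega)) y g
    have e : ∀ ω, ind (Agr x r (k + 1) u (D.c ω) g) = ind (Agr x r k u (D.c ω) g) := by
      intro ω
      apply ind_congr
      constructor
      · intro h w h1 h2; exact h w (by omega) h2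
      · intro h w h1 h2; exact h w (by have := hk w; omega) h2
    simp only [e]
    exact h

/-- colour one more vertex with the help of a kernel -/
theorem step (D : QLaw G x r m k) (hr : Function.Injective r) (v : V) (hv : r v = k)
    (K : D.Ω → Fin 3 → ℝ) (hK0 : ∀ ω j, 0 ≤ K ω j) (hK1 : ∀ ω, ∑ j, K ω j = 1)
    (hKp : ∀ ω j, D.p ω ≠ 0 → K ω j ≠ 0 → ∀ u, G.Adj u v → r u < k → j ≠ m u v (D.c ω u))
    (hKu : ∀ j, ∑ ω, D.p ω * K ω j = 1 / 3)
    (hKv : ∀ y g, ∑ ω, D.p ω * (K ω y * ind (Agr x r k v (D.c ω) g)) ≤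
      1 / 2 * ∑ ω, D.p ω * ind (Agr x r k v (D.c ω) g))
    (hKf : ∀ u, r u < k → x v < x u → ¬ G.Adj u v →
      (∀ w, G.Adj u w → r u < r w → r w < k → ¬ x w < x u) → ∀ y g,
      ∑ ω, D.p ω * (K ω (g v) * (ind (D.c ω u = y) * ind (Agr x r k u (D.c ω) g))) ≤
      1 / 2 * ∑ ω, D.p ω * (K ω (g v) * ind (Agr x r k u (D.c ω) g))) :
    Nonempty (QLaw G x r m (k + 1)) := by
  classical
  have hold : ∀ F : D.Ω → ℝ,
      ∑ q : D.Ω × Fin 3, (D.p q.1 * K q.1 q.2) * F q.1 = ∑ ω, D.p ω * F ω := by
    intro F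
    rw [Fintype.sum_prod_type]
    refine Finset.sum_congr rfl fun ω _ => ?_
    have : ∑ j, D.p ω * K ω j * F ω = (∑ j, K ω j) * (D.p ω * F ω) := by
      rw [Finset.sum_mul]
      exact Finset.sum_congr rfl fun j _ => by ring
    rw [this, hK1, one_mul]
  have hnew : ∀ (F : D.Ω → ℝ) (y : Fin 3),
      ∑ q : D.Ω × Fin 3, (D.p q.1 * K q.1 q.2) * (ind (q.2 = y) * F q.1) =
        ∑ ω, D.p ω * (K ω y * F ω) := by
    intro F y
    rw [Fintype.sum_prod_type]
    refine Finset.sum_congr rfl fun ω _ => ?_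
    rw [Finset.sum_eq_single y]
    · rw [ind_pos rfl]; ring
    · intro j _ hj
      rw [ind_neg hj]; ring
    · intro h; exact absurd (Finset.mem_univ y) h
  have hlt : ∀ {u : V}, r u < k + 1 → u ≠ v → r u < k := by
    intro u h1 h2
    have : r u ≠ k := fun h => h2 (hr (h.trans hv.symm))
    omega
  have hcu : ∀ (q : D.Ω × Fin 3) (u : V), u ≠ v →
      Function.update (D.c q.1) v q.2 u = D.c q.1 u := by
    intro q u hu
    rw [Function.update_of_ne hu]
  refine ⟨⟨D.Ω × Fin 3, inferInstance, fun q => D.p q.1 * K q.1 q.2,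
    fun q => Function.update (D.c q.1) v q.2, ?_, ?_, ?_, ?_, ?_⟩⟩
  · intro q; exact mul_nonneg (D.pos _) (hK0 _ _)
  · have := hold (fun _ => 1)
    simp only [mul_one] at this
    rw [this, D.one]
  · intro q u w hq hadj hlt' hw
    have hp := left_ne_zero_of_mul hq
    have hk := right_ne_zero_of_mul hq
    by_cases huv : u = v
    · subst huv
      exfalso
      have hwu : w ≠ u := hadj.ne'
      have := hlt hw hwu
      omega
    · by_cases hwv : w = v
      · subst hwv
        simp only [Function.update_self, hcu q u huv]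
        exact hKp q.1 q.2 hp hk u hadj (by omega)
      · simp only [hcu q u huv, hcu q w hwv]
        exact D.proper _ _ _ hp hadj hlt' (hlt hw hwv)
  · intro u hu y
    by_cases huv : u = v
    · subst huv
      simp only [Function.update_self]
      have := hnew (fun _ => 1) y
      simp only [mul_one] at this
      rw [this]
      exact hKu y
    · simp only [hcu _ u huv]
      rw [hold (fun ω => ind (D.c ω u = y))]
      exact D.unif u (hlt hu huv) y
  · intro u hu hf y g
    by_cases huv : u = v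
    · subst huv
      have e : ∀ q : D.Ω × Fin 3, ind (Agr x r (k + 1) u (Function.update (D.c q.1) u q.2) g) =
          ind (Agr x r k u (D.c q.1) g) := fun q =>
        ind_congr (agr_succ_of_not hr hv (lt_irrefl _) _ _ _)
      simp only [Function.update_self, e]
      rw [hnew (fun ω => ind (Agr x r k u (D.c ω) g)) y,
        hold (fun ω => ind (Agr x r k u (D.c ω) g))]
      exact hKv y g
    · have huk := hlt hu huv
      have hf' : ∀ w, G.Adj u w → r u < r w → r w < k → ¬ x w < x u :=
        fun w h1 h2 h3 => hf w h1 h2 (by omega)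
      simp only [hcu _ u huv]
      by_cases hx : x v < x u
      · have hna : ¬ G.Adj u v := fun h => hf v h (by omega) (by omega) hx
        have e : ∀ q : D.Ω × Fin 3,
            ind (Agr x r (k + 1) u (Function.update (D.c q.1) v q.2) g) =
            ind (q.2 = g v) * ind (Agr x r k u (D.c q.1) g) := fun q => by
          rw [← ind_and]
          exact ind_congr (agr_succ_of hr hv hx _ _ _)
        have e2 : ∀ q : D.Ω × Fin 3, ind (D.c q.1 u = y) *
            (ind (q.2 = g v) * ind (Agr x r k u (D.c q.1) g)) =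
            ind (q.2 = g v) * (ind (D.c q.1 u = y) * ind (Agr x r k u (D.c q.1) g)) :=
          fun q => by ring
        simp only [e, e2]
        rw [hnew (fun ω => ind (D.c ω u = y) * ind (Agr x r k u (D.c ω) g)) (g v),
          hnew (fun ω => ind (Agr x r k u (D.c ω) g)) (g v)]
        exact hKf u huk hx hna hf' y g
      · have e : ∀ q : D.Ω × Fin 3,
            ind (Agr x r (k + 1) u (Function.update (D.c q.1) v q.2) g) =
            ind (Agr x r k u (D.c q.1) g) := fun q =>
          ind_congr (agr_succ_of_not hr hv hx _ _ _)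
        simp only [e]
        rw [hold (fun ω => ind (D.c ω u = y) * ind (Agr x r k u (D.c ω) g)),
          hold (fun ω => ind (Agr x r k u (D.c ω) g))]
        exact D.fresh u huk hf' y g

end QLaw

end Pool.Agent.Helper12.QD
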