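import Mathlib
import Pool.Agent.Helper12.QD.Core

set_option autoImplicit false

/-! # Three quadrants theorem: the two kernels and the induction -/

namespace Pool.Agent.Helper12.QD

open Finset

variable {V : Type} {α : Type} [LinearOrder α]

namespace QLaw

variable {G : SimpleGraph V} {x : V → α} {r : V → ℕ} {m : V → V → Equiv.Perm (Fin 3)} {k : ℕ}

/-- the target law of a new vertex: uniform over the two labels that do not conflict with its
lower-left neighbour -/
theorem exists_lam (D : QLaw G x r m k) (v : V)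
    (hLL : ∀ a a', G.Adj a v → G.Adj a' v → r a < k → r a' < k → x a < x v → x a' < x v → a = a') :
    ∃ lam : (V → Fin 3) → Fin 3 → ℝ, (∀ c j, 0 ≤ lam c j) ∧ (∀ c j, lam c j ≤ 1 / 2) ∧
      (∀ c, ∑ j, lam c j = 1) ∧
      (∀ c a, G.Adj a v → r a < k → x a < x v → lam c (m a v (c a)) = 0) ∧
      (∀ j, ∑ ω, D.p ω * lam (D.c ω) j = 1 / 3) ∧
      (∀ c c', Agr x r k v c c' → lam c = lam c') := by
  by_cases h : ∃ a, G.Adj a v ∧ r a < k ∧ x a < x v
  · obtain ⟨a, ha1, ha2, ha3⟩ := h
    refine ⟨fun c j => 1 / 2 * (1 - ind (c a = (m a v).symm j)), ?_, ?_, ?_, ?_, ?_, ?_⟩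
    · intro c j
      by_cases hj : c a = (m a v).symm j
      · simp only [ind_pos hj]; norm_num
      · simp only [ind_neg hj]; norm_num
    · intro c j
      have := ind_nonneg (c a = (m a v).symm j)
      dsimp only
      linarith
    · intro c
      rw [← Finset.add_sum_erase _ _ (Finset.mem_univ (m a v (c a)))]
      have e1 : c a = (m a v).symm (m a v (c a)) := by simp
      have e2 : ∀ j ∈ Finset.univ.erase (m a v (c a)),
          1 / 2 * (1 - ind (c a = (m a v).symm j)) = (1 / 2 : ℝ) := by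
        intro j hj
        have hj' : j ≠ m a v (c a) := Finset.ne_of_mem_erase hj
        rw [ind_neg]
        · norm_num
        · intro h
          apply hj'
          rw [h, Equiv.apply_symm_apply]
      rw [Finset.sum_congr rfl e2]
      dsimp only
      rw [ind_pos e1, Finset.sum_const]
      have : ((Finset.univ : Finset (Fin 3)).erase (m a v (c a))).card = 2 := by
        rw [Finset.card_erase_of_mem (Finset.mem_univ _)]
        simp
      rw [this]
      norm_num
    · intro c a' h1 h2 h3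
      have : a' = a := hLL a' a h1 ha1 h2 ha2 h3 ha3
      subst this
      dsimp only
      rw [ind_pos (by simp)]
      norm_num
    · intro j
      have e : ∀ ω, D.p ω * (1 / 2 * (1 - ind (D.c ω a = (m a v).symm j))) =
          1 / 2 * D.p ω - 1 / 2 * (D.p ω * ind (D.c ω a = (m a v).symm j)) := fun ω => by ring
      simp only [e]
      rw [Finset.sum_sub_distrib, ← Finset.mul_sum, ← Finset.mul_sum, D.one, D.unif a ha2]
      norm_num
    · intro c c' hc
      have := hc a ha2 ha3
      ext j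
      dsimp only
      rw [this]
  · push Not at h
    refine ⟨fun _ _ => 1 / 3, ?_, ?_, ?_, ?_, ?_, ?_⟩
    · intro _ _; norm_num
    · intro _ _; norm_num
    · intro _; norm_num
    · intro c a h1 h2 h3
      exact absurd h3 (not_lt.2 (h a h1 h2))
    · intro j
      rw [← Finset.sum_mul, D.one, one_mul]
    · intro _ _ _; rfl

/-- the conditional kernel of the new vertex given the colours to the left of `b` and the colour of
`b` -/
theorem key (D : QLaw G x r m k) (b : V) (hb : r b < k)
    (hfresh : ∀ w, G.Adj b w → r b < r w → r w < k → ¬ x w < x b)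
    (lam : (V → Fin 3) → Fin 3 → ℝ) (hl0 : ∀ c j, 0 ≤ lam c j) (hl2 : ∀ c j, lam c j ≤ 1 / 2)
    (hl1 : ∀ c, ∑ j, lam c j = 1) (hld : ∀ c c', Agr x r k b c c' → lam c = lam c')
    (σ : Equiv.Perm (Fin 3)) :
    ∃ K : (V → Fin 3) → Fin 3 → Fin 3 → ℝ, (∀ c i j, 0 ≤ K c i j) ∧ (∀ c i, ∑ j, K c i j = 1) ∧
      (∀ c i, K c i (σ i) = 0) ∧ (∀ c c', Agr x r k b c c' → K c = K c') ∧
      (∀ ω j, D.p ω ≠ 0 → lam (D.c ω) j = 0 → K (D.c ω) (D.c ω b) j = 0) ∧
      (∀ f : (V → Fin 3) → ℝ, (∀ c c', Agr x r k b c c' → f c = f c') → ∀ j,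
        ∑ ω, D.p ω * (K (D.c ω) (D.c ω b) j * f (D.c ω)) =
          ∑ ω, D.p ω * (lam (D.c ω) j * f (D.c ω))) := by
  classical
  set N : (V → Fin 3) → ℝ := fun g => ∑ ω, D.p ω * ind (Agr x r k b (D.c ω) g) with hN
  set M : (V → Fin 3) → Fin 3 → ℝ := fun g i =>
    ∑ ω, D.p ω * (ind (D.c ω b = i) * ind (Agr x r k b (D.c ω) g)) with hM
  have hN0 : ∀ g, 0 ≤ N g := fun g =>
    Finset.sum_nonneg fun ω _ => mul_nonneg (D.pos ω) (ind_nonneg _)
  have hM0 : ∀ g i, 0 ≤ M g i := fun g i =>
    Finset.sum_nonneg fun ω _ => mul_nonneg (D.pos ω) (mul_nonneg (ind_nonneg _) (ind_nonneg _))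
  have hMN : ∀ g i, M g i ≤ 1 / 2 * N g := fun g i => D.fresh b hb hfresh i g
  have hsumind : ∀ a : Fin 3, ∑ i, ind (a = i) = 1 := by
    intro a
    rw [Finset.sum_eq_single a]
    · exact ind_pos rfl
    · intro i _ hi; exact ind_neg (Ne.symm hi)
    · intro h; exact absurd (Finset.mem_univ a) h
  have hMs : ∀ g, ∑ i, M g i = N g := by
    intro g
    simp only [hM, hN]
    rw [Finset.sum_comm]
    refine Finset.sum_congr rfl fun ω _ => ?_
    rw [← Finset.mul_sum, ← Finset.sum_mul, hsumind, one_mul]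
  have hNd : ∀ c c', Agr x r k b c c' → N c = N c' := by
    intro c c' h
    simp only [hN]
    refine Finset.sum_congr rfl fun ω _ => ?_
    rw [ind_congr (h.congr_right (D.c ω))]
  have hMd : ∀ c c', Agr x r k b c c' → M c = M c' := by
    intro c c' h
    ext i
    simp only [hM]
    refine Finset.sum_congr rfl fun ω _ => ?_
    rw [ind_congr (h.congr_right (D.c ω))]
  have hNpos : ∀ ω, D.p ω ≠ 0 → 0 < N (D.c ω) := by
    intro ω hω
    have h1 : D.p ω * ind (Agr x r k b (D.c ω) (D.c ω)) ≤ N (D.c ω) :=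
      Finset.single_le_sum (f := fun ω' => D.p ω' * ind (Agr x r k b (D.c ω') (D.c ω)))
        (fun ω' _ => mul_nonneg (D.pos ω') (ind_nonneg _)) (Finset.mem_univ ω)
    rw [ind_pos (Agr.refl _ _ _ _ _), mul_one] at h1
    exact lt_of_lt_of_le (lt_of_le_of_ne (D.pos ω) (Ne.symm hω)) h1
  -- conditional law of `b`
  set bet : (V → Fin 3) → Fin 3 → ℝ := fun g i => if N g = 0 then 1 / 3 else M g i / N g with hbet
  have hbet0 : ∀ g i, 0 ≤ bet g i := by
    intro g i
    simp only [hbet]
    split_ifs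
    · norm_num
    · exact div_nonneg (hM0 g i) (hN0 g)
  have hbet1 : ∀ g, ∑ i, bet g i = 1 := by
    intro g
    by_cases h : N g = 0
    · simp only [hbet, h, if_true]; norm_num
    · simp only [hbet, h, if_false]
      rw [← Finset.sum_div, hMs, div_self h]
  have hbet2 : ∀ g i, bet g i ≤ 1 / 2 := by
    intro g i
    by_cases h : N g = 0
    · simp only [hbet, h, if_true]; norm_num
    · simp only [hbet, h, if_false]
      rw [div_le_iff₀ (lt_of_le_of_ne (hN0 g) (Ne.symm h))]
      exact hMN g i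
  have hbetd : ∀ c c', Agr x r k b c c' → bet c = bet c' := by
    intro c c' h
    ext i
    simp only [hbet]
    rw [hNd c c' h, hMd c c' h]
  have hex : ∀ B L : Fin 3 → ℝ, ∃ κ : Fin 3 → Fin 3 → ℝ,
      ((∀ i, 0 ≤ B i) → (∀ i, 0 ≤ L i) → ∑ i, B i = 1 → ∑ i, L i = 1 →
        (∀ i, B i + L (σ i) ≤ 1) → ((∀ i j, 0 ≤ κ i j) ∧ (∀ i, ∑ j, κ i j = 1) ∧
        (∀ i, κ i (σ i) = 0) ∧ (∀ j, ∑ i, B i * κ i j = L j))) := by
    intro B L
    by_cases h : (∀ i, 0 ≤ B i) ∧ (∀ i, 0 ≤ L i) ∧ ∑ i, B i = 1 ∧ ∑ i, L i = 1 ∧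
        (∀ i, B i + L (σ i) ≤ 1)
    · obtain ⟨κ, hκ⟩ := coupling B L σ h.1 h.2.1 h.2.2.1 h.2.2.2.1 h.2.2.2.2
      exact ⟨κ, fun _ _ _ _ _ => hκ⟩
    · exact ⟨0, fun h1 h2 h3 h4 h5 => absurd ⟨h1, h2, h3, h4, h5⟩ h⟩
  choose κ hκ using hex
  have hgood : ∀ c, (∀ i j, 0 ≤ κ (bet c) (lam c) i j) ∧ (∀ i, ∑ j, κ (bet c) (lam c) i j = 1) ∧
      (∀ i, κ (bet c) (lam c) i (σ i) = 0) ∧
      (∀ j, ∑ i, bet c i * κ (bet c) (lam c) i j = lam c j) := fun c =>
    hκ (bet c) (lam c) (hbet0 c) (hl0 c) (hbet1 c) (hl1 c)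
      (fun i => by have := hbet2 c i; have := hl2 c (σ i); linarith)
  have hKd : ∀ c c', Agr x r k b c c' → κ (bet c) (lam c) = κ (bet c') (lam c') := by
    intro c c' h
    rw [hbetd c c' h, hld c c' h]
  refine ⟨fun c => κ (bet c) (lam c), fun c => (hgood c).1, fun c => (hgood c).2.1,
    fun c => (hgood c).2.2.1, hKd, ?_, ?_⟩
  · intro ω j hω hl
    have h1 := (hgood (D.c ω)).2.2.2 j
    rw [hl] at h1
    have h2 := (Finset.sum_eq_zero_iff_of_nonneg (fun i _ =>
      mul_nonneg (hbet0 (D.c ω) i) ((hgood (D.c ω)).1 i j))).1 h1 (D.c ω b) (Finset.mem_univ _)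
    rcases mul_eq_zero.1 h2 with h3 | h3
    · exfalso
      have hNp := hNpos ω hω
      simp only [hbet, hNp.ne', if_false] at h3
      rw [div_eq_zero_iff] at h3
      rcases h3 with h3 | h3
      · have h4 : D.p ω * (ind (D.c ω b = D.c ω b) * ind (Agr x r k b (D.c ω) (D.c ω))) ≤
            M (D.c ω) (D.c ω b) :=
          Finset.single_le_sum (f := fun ω' =>
            D.p ω' * (ind (D.c ω' b = D.c ω b) * ind (Agr x r k b (D.c ω') (D.c ω))))
            (fun ω' _ => mul_nonneg (D.pos ω') (mul_nonneg (ind_nonneg _) (ind_nonneg _)))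
            (Finset.mem_univ ω)
        rw [ind_pos rfl, ind_pos (Agr.refl _ _ _ _ _), mul_one, mul_one, h3] at h4
        exact hω (le_antisymm h4 (D.pos ω))
      · exact hNp.ne' h3
    · exact h3
  · intro f hf j
    -- averaging over the classes
    have havg : ∀ X : D.Ω → ℝ, ∑ ω, D.p ω * X ω = ∑ ω', D.p ω' *
        ((∑ ω, D.p ω * (ind (Agr x r k b (D.c ω) (D.c ω')) * X ω)) / N (D.c ω')) := by
      intro X
      have e1 : ∀ ω', D.p ω' *
          ((∑ ω, D.p ω * (ind (Agr x r k b (D.c ω) (D.c ω')) * X ω)) / N (D.c ω')) =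
          ∑ ω, D.p ω * X ω * (D.p ω' * ind (Agr x r k b (D.c ω') (D.c ω)) / N (D.c ω)) := by
        intro ω'
        rw [Finset.sum_div, Finset.mul_sum]
        refine Finset.sum_congr rfl fun ω _ => ?_
        by_cases h : Agr x r k b (D.c ω) (D.c ω')
        · rw [ind_pos h, ind_pos h.symm, hNd _ _ h]
          ring
        · rw [ind_neg h, ind_neg (fun h' => h h'.symm)]
          ring
      simp only [e1]
      rw [Finset.sum_comm]
      refine Finset.sum_congr rfl fun ω _ => ?_
      rw [← Finset.mul_sum, ← Finset.sum_div]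
      by_cases hω : D.p ω = 0
      · rw [hω]; ring
      · have hNp := hNpos ω hω
        have e2 : (∑ ω', D.p ω' * ind (Agr x r k b (D.c ω') (D.c ω))) = N (D.c ω) := rfl
        rw [e2, div_self hNp.ne', mul_one]
    rw [havg (fun ω => κ (bet (D.c ω)) (lam (D.c ω)) (D.c ω b) j * f (D.c ω))]
    refine Finset.sum_congr rfl fun ω' _ => ?_
    by_cases hω : D.p ω' = 0
    · rw [hω]; ring
    · congr 1
      have hNp := hNpos ω' hω
      have e3 : ∑ ω, D.p ω * (ind (Agr x r k b (D.c ω) (D.c ω')) *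
          (κ (bet (D.c ω)) (lam (D.c ω)) (D.c ω b) j * f (D.c ω))) =
          f (D.c ω') * ∑ i, M (D.c ω') i * κ (bet (D.c ω')) (lam (D.c ω')) i j := by
        have e4 : ∀ ω, D.p ω * (ind (Agr x r k b (D.c ω) (D.c ω')) *
            (κ (bet (D.c ω)) (lam (D.c ω)) (D.c ω b) j * f (D.c ω))) =
            f (D.c ω') * ∑ i, (D.p ω * (ind (D.c ω b = i) *
              ind (Agr x r k b (D.c ω) (D.c ω')))) * κ (bet (D.c ω')) (lam (D.c ω')) i j := by
          intro ω
          rw [Finset.sum_eq_single (D.c ω b)]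
          · rw [ind_pos (rfl : D.c ω b = D.c ω b)]
            by_cases h : Agr x r k b (D.c ω) (D.c ω')
            · rw [hKd _ _ h, hf _ _ h]; ring
            · rw [ind_neg h]; ring
          · intro i _ hi
            rw [ind_neg (Ne.symm hi)]; ring
          · intro h; exact absurd (Finset.mem_univ _) h
        simp only [e4]
        rw [← Finset.mul_sum]
        congr 1
        rw [Finset.sum_comm]
        refine Finset.sum_congr rfl fun i _ => ?_
        rw [← Finset.sum_mul]
      rw [e3]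
      have e5 : ∑ i, M (D.c ω') i * κ (bet (D.c ω')) (lam (D.c ω')) i j =
          N (D.c ω') * lam (D.c ω') j := by
        rw [← (hgood (D.c ω')).2.2.2 j, Finset.mul_sum]
        refine Finset.sum_congr rfl fun i _ => ?_
        simp only [hbet, hNp.ne', if_false]
        field_simp
      rw [e5]
      field_simp

/-- one more vertex, without a lower-right neighbour -/
theorem step_nob (D : QLaw G x r m k) (hr : Function.Injective r) (hx : Function.Injective x)
    (v : V) (hv : r v = k)
    (hLL : ∀ a a', G.Adj a v → G.Adj a' v → r a < k → r a' < k → x a < x v → x a' < x v → a = a')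
    (hLR : ∀ b, G.Adj b v → r b < k → ¬ x v < x b) :
    Nonempty (QLaw G x r m (k + 1)) := by
  obtain ⟨lam, l0, l2, l1, lp, lu, ld⟩ := D.exists_lam v hLL
  refine D.step hr v hv (fun ω => lam (D.c ω)) (fun ω => l0 _) (fun ω => l1 _) ?_ lu ?_ ?_
  · intro ω j _ hk u hu huk hj
    have h1 : x u < x v := by
      have h2 : x u ≠ x v := fun h => hu.ne (hx h)
      exact lt_of_le_of_ne (not_lt.1 (hLR u hu huk)) h2
    apply hk
    rw [hj]
    exact lp _ u hu huk h1
  · intro y g
    rw [Finset.mul_sum]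
    refine Finset.sum_le_sum fun ω _ => ?_
    have h1 := l2 (D.c ω) y
    have h2 := D.pos ω
    have h3 := ind_nonneg (Agr x r k v (D.c ω) g)
    have h4 : 0 ≤ D.p ω * ind (Agr x r k v (D.c ω) g) := mul_nonneg h2 h3
    nlinarith
  · intro u hu hxu _ hf y g
    have e1 : ∀ ω, D.p ω * (lam (D.c ω) (g v) * (ind (D.c ω u = y) *
        ind (Agr x r k u (D.c ω) g))) = lam g (g v) * (D.p ω * (ind (D.c ω u = y) *
        ind (Agr x r k u (D.c ω) g))) := by
      intro ω
      by_cases h : Agr x r k u (D.c ω) g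
      · rw [ld _ _ (h.mono hxu.le)]; ring
      · rw [ind_neg h]; ring
    have e2 : ∀ ω, D.p ω * (lam (D.c ω) (g v) * ind (Agr x r k u (D.c ω) g)) =
        lam g (g v) * (D.p ω * ind (Agr x r k u (D.c ω) g)) := by
      intro ω
      by_cases h : Agr x r k u (D.c ω) g
      · rw [ld _ _ (h.mono hxu.le)]; ring
      · rw [ind_neg h]; ring
    simp only [e1, e2]
    rw [← Finset.mul_sum, ← Finset.mul_sum]
    have h1 := D.fresh u hu hf y g
    have h2 := l0 g (g v)
    calc _ ≤ lam g (g v) * (1 / 2 * ∑ ω, D.p ω * ind (Agr x r k u (D.c ω) g)) :=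
          mul_le_mul_of_nonneg_left h1 h2
      _ = _ := by ring

/-- one more vertex, with lower-right neighbour `b` -/
theorem step_b (D : QLaw G x r m k) (hr : Function.Injective r) (hx : Function.Injective x)
    (v : V) (hv : r v = k)
    (hLL : ∀ a a', G.Adj a v → G.Adj a' v → r a < k → r a' < k → x a < x v → x a' < x v → a = a')
    (b : V) (hb : r b < k) (hbv : G.Adj b v) (hxb : x v < x b)
    (hLR : ∀ b', G.Adj b' v → r b' < k → x v < x b' → b' = b)
    (hfresh : ∀ w, G.Adj b w → r b < r w → r w < k → ¬ x w < x b) :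
    Nonempty (QLaw G x r m (k + 1)) := by
  obtain ⟨lam, l0, l2, l1, lp, lu, ld⟩ := D.exists_lam v hLL
  obtain ⟨K, K0, K1, Kd, Kdep, Kz, Kf⟩ := D.key b hb hfresh lam l0 l2 l1
    (fun c c' h => ld c c' (h.mono hxb.le)) (m b v)
  refine D.step hr v hv (fun ω => K (D.c ω) (D.c ω b)) (fun ω j => K0 _ _ _) (fun ω => K1 _ _)
    ?_ ?_ ?_ ?_
  · intro ω j hp hk u hu huk hj
    by_cases h1 : x v < x u
    · have : u = b := hLR u hu huk h1
      subst this
      apply hk
      rw [hj]
      exact Kd _ _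
    · have h2 : x u ≠ x v := fun h => hu.ne (hx h)
      have h3 : x u < x v := lt_of_le_of_ne (not_lt.1 h1) h2
      apply hk
      apply Kz ω j hp
      rw [hj]
      exact lp _ u hu huk h3
  · intro j
    have := Kf (fun _ => 1) (fun _ _ _ => rfl) j
    simp only [mul_one] at this
    rw [this]
    exact lu j
  · intro y g
    rw [Kf (fun c => ind (Agr x r k v c g))
      (fun c c' h => ind_congr ((h.mono hxb.le).congr_left g)) y, Finset.mul_sum]
    refine Finset.sum_le_sum fun ω _ => ?_
    have h1 := l2 (D.c ω) y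
    have h2 := D.pos ω
    have h3 := ind_nonneg (Agr x r k v (D.c ω) g)
    have h4 : 0 ≤ D.p ω * ind (Agr x r k v (D.c ω) g) := mul_nonneg h2 h3
    nlinarith
  · intro u hu hxu hna hf y g
    have hub : u ≠ b := by rintro rfl; exact hna hbv
    have hxub : x u ≠ x b := fun h => hub (hx h)
    rcases lt_or_gt_of_ne hxub with hlt | hgt
    · -- `v < u < b`
      have e0 : ∀ c c', Agr x r k b c c' →
          ind (c u = y) * ind (Agr x r k u c g) = ind (c' u = y) * ind (Agr x r k u c' g) := by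
        intro c c' h
        rw [ind_congr ((h.mono hlt.le).congr_left g), h u hu hlt]
      have e0' : ∀ c c', Agr x r k b c c' → ind (Agr x r k u c g) = ind (Agr x r k u c' g) := by
        intro c c' h
        rw [ind_congr ((h.mono hlt.le).congr_left g)]
      rw [Kf (fun c => ind (c u = y) * ind (Agr x r k u c g)) e0 (g v),
        Kf (fun c => ind (Agr x r k u c g)) e0' (g v)]
      have e1 : ∀ ω, D.p ω * (lam (D.c ω) (g v) * (ind (D.c ω u = y) *
          ind (Agr x r k u (D.c ω) g))) = lam g (g v) * (D.p ω * (ind (D.c ω u = y) *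
          ind (Agr x r k u (D.c ω) g))) := by
        intro ω
        by_cases h : Agr x r k u (D.c ω) g
        · rw [ld _ _ (h.mono hxu.le)]; ring
        · rw [ind_neg h]; ring
      have e2 : ∀ ω, D.p ω * (lam (D.c ω) (g v) * ind (Agr x r k u (D.c ω) g)) =
          lam g (g v) * (D.p ω * ind (Agr x r k u (D.c ω) g)) := by
        intro ω
        by_cases h : Agr x r k u (D.c ω) g
        · rw [ld _ _ (h.mono hxu.le)]; ring
        · rw [ind_neg h]; ring
      simp only [e1, e2]
      rw [← Finset.mul_sum, ← Finset.mul_sum]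
      have h1 := D.fresh u hu hf y g
      have h2 := l0 g (g v)
      calc _ ≤ lam g (g v) * (1 / 2 * ∑ ω, D.p ω * ind (Agr x r k u (D.c ω) g)) :=
            mul_le_mul_of_nonneg_left h1 h2
        _ = _ := by ring
    · -- `b < u`
      have e1 : ∀ ω, D.p ω * (K (D.c ω) (D.c ω b) (g v) * (ind (D.c ω u = y) *
          ind (Agr x r k u (D.c ω) g))) = K g (g b) (g v) * (D.p ω * (ind (D.c ω u = y) *
          ind (Agr x r k u (D.c ω) g))) := by
        intro ω
        by_cases h : Agr x r k u (D.c ω) g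
        · rw [Kdep _ _ (h.mono hgt.le), h b hb hgt]; ring
        · rw [ind_neg h]; ring
      have e2 : ∀ ω, D.p ω * (K (D.c ω) (D.c ω b) (g v) * ind (Agr x r k u (D.c ω) g)) =
          K g (g b) (g v) * (D.p ω * ind (Agr x r k u (D.c ω) g)) := by
        intro ω
        by_cases h : Agr x r k u (D.c ω) g
        · rw [Kdep _ _ (h.mono hgt.le), h b hb hgt]; ring
        · rw [ind_neg h]; ring
      simp only [e1, e2]
      rw [← Finset.mul_sum, ← Finset.mul_sum]
      have h1 := D.fresh u hu hf y g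
      have h2 := K0 g (g b) (g v)
      calc _ ≤ K g (g b) (g v) * (1 / 2 * ∑ ω, D.p ω * ind (Agr x r k u (D.c ω) g)) :=
            mul_le_mul_of_nonneg_left h1 h2
        _ = _ := by ring

/-- all stages -/
theorem exists_law (G : SimpleGraph V) (x : V → α) (hx : Function.Injective x) (r : V → ℕ)
    (hr : Function.Injective r) (m : V → V → Equiv.Perm (Fin 3))
    (hLL : ∀ v a a', G.Adj a v → G.Adj a' v → r a < r v → r a' < r v → x a < x v → x a' < x v →
      a = a')
    (hLR : ∀ v b b', G.Adj b v → G.Adj b' v → r b < r v → r b' < r v → x v < x b → x v < x b' →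
      b = b')
    (hUL : ∀ u v w, G.Adj u v → G.Adj u w → r u < r v → r u < r w → x v < x u → x w < x u → v = w)
    (k : ℕ) : Nonempty (QLaw G x r m k) := by
  induction k with
  | zero => exact ⟨init G x r m⟩
  | succ k ih =>
    obtain ⟨D⟩ := ih
    by_cases hk : ∃ v, r v = k
    · obtain ⟨v, hv⟩ := hk
      have hLL' : ∀ a a', G.Adj a v → G.Adj a' v → r a < k → r a' < k → x a < x v →
          x a' < x v → a = a' := fun a a' h1 h2 h3 h4 h5 h6 =>
        hLL v a a' h1 h2 (by omega) (by omega) h5 h6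
      by_cases hb : ∃ b, G.Adj b v ∧ r b < k ∧ x v < x b
      · obtain ⟨b, hb1, hb2, hb3⟩ := hb
        refine D.step_b hr hx v hv hLL' b hb2 hb1 hb3 ?_ ?_
        · intro b' h1 h2 h3
          exact hLR v b' b h1 hb1 (by omega) (by omega) h3 hb3
        · intro w h1 h2 h3 h4
          have := hUL b w v h1 hb1 h2 (by omega) h4 hb3
          rw [this] at h3
          omega
      · push Not at hb
        refine D.step_nob hr hx v hv hLL' ?_
        intro b h1 h2
        exact not_lt.2 (hb b h1 h2)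
    · push Not at hk
      exact ⟨D.skip hk⟩

end QLaw

end Pool.Agent.Helper12.QD
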