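import Mathlib
import Pool.Agent.Helper12.LP.Labels
import Pool.Agent.Helper12.QD.Steps

set_option autoImplicit false

/-! # Layers: adding a forest each of whose vertices has at most one neighbour in the old part -/

namespace Pool.Agent.Helper12.QD

open Finset

/-- a matching between three labels and three labels extends to a bijection -/
theorem exists_perm (Q : Fin 3 → Fin 3 → Prop) (h1 : ∀ i j j', Q i j → Q i j' → j = j')
    (h2 : ∀ i i' j, Q i j → Q i' j → i = i') :
    ∃ σ : Equiv.Perm (Fin 3), ∀ i j, Q i j → σ i = j := by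
  classical
  let s : Finset (Fin 3) := Finset.univ.filter (fun i => ∃ j, Q i j)
  let g : Fin 3 → Fin 3 := fun i => if h : ∃ j, Q i j then h.choose else i
  have hg : ∀ i j, Q i j → g i = j := by
    intro i j hij
    have h : ∃ j, Q i j := ⟨j, hij⟩
    have h3 : Q i (g i) := by
      simp only [g, dif_pos h]
      exact h.choose_spec
    exact h1 _ _ _ h3 hij
  have hinj : Set.InjOn g (s : Set (Fin 3)) := by
    intro i hi i' hi' hii
    obtain ⟨j, hj⟩ := (Finset.mem_filter.mp (Finset.mem_coe.mp hi)).2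
    obtain ⟨j', hj'⟩ := (Finset.mem_filter.mp (Finset.mem_coe.mp hi')).2
    have h3 := hg _ _ hj
    have h4 := hg _ _ hj'
    have h5 : j = j' := by rw [← h3, ← h4, hii]
    subst h5
    exact h2 _ _ _ hj hj'
  obtain ⟨q, hq⟩ := Finset.exists_equiv_extend_of_card_eq (t := (Finset.univ : Finset (Fin 3)))
    (by simp) (s := s) (f := g) (Finset.subset_univ _) hinj
  refine ⟨q.trans (Equiv.subtypeUnivEquiv (fun x => Finset.mem_univ x)), ?_⟩
  intro i j hij
  have h3 : i ∈ s := Finset.mem_filter.mpr ⟨Finset.mem_univ _, ⟨j, hij⟩⟩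
  have h4 := hq i h3
  have h5 : (q.trans (Equiv.subtypeUnivEquiv (fun x => Finset.mem_univ x))) i = g i := h4
  rw [h5]
  exact hg i j hij

variable {V : Type}

/-- a random colouring of the set `W` of vertices with uniform marginals; `Q u v i j` means that
label `i` at `u` and label `j` at `v` are in conflict -/
structure PLaw (G : SimpleGraph V) (Q : V → V → Fin 3 → Fin 3 → Prop) (W : Set V) where
  Ω : Type
  fin : Fintype Ω
  p : Ω → ℝ
  c : Ω → V → Fin 3
  pos : ∀ ω, 0 ≤ p ω
  one : ∑ ω, p ω = 1
  proper : ∀ ω u v, p ω ≠ 0 → u ∈ W → v ∈ W → G.Adj u v → ¬ Q u v (c ω u) (c ω v)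
  unif : ∀ v ∈ W, ∀ y, ∑ ω, p ω * ind (c ω v = y) = 1 / 3

attribute [instance] PLaw.fin

namespace PLaw

variable {G : SimpleGraph V} {Q : V → V → Fin 3 → Fin 3 → Prop} {W : Set V}

/-- add a forest -/
theorem add_forest [Finite V] (D : PLaw G Q W) (hs : ∀ u v i j, Q u v i j → Q v u j i)
    (hQ : ∀ u v i j j', Q u v i j → Q u v i j' → j = j')
    (F : Set V) (hFW : ∀ v ∈ F, v ∉ W) (hF : (G.induce F).IsAcyclic)
    (h1 : ∀ v ∈ F, ∀ a ∈ W, ∀ b ∈ W, G.Adj v a → G.Adj v b → a = b) :
    Nonempty (PLaw G Q (W ∪ F)) := by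
  classical
  have hQ' : ∀ u v i i' j, Q u v i j → Q u v i' j → i = i' := fun u v i i' j h h' =>
    hQ v u j i i' (hs _ _ _ _ h) (hs _ _ _ _ h')
  have hm : ∀ u v, ∃ σ : Equiv.Perm (Fin 3), ∀ i j, Q u v i j → σ i = j := fun u v =>
    exists_perm (Q u v) (hQ u v) (hQ' u v)
  choose m hm using hm
  -- the removed label
  let rem : D.Ω → Fin 3 → V → Fin 3 := fun ω ρ v =>
    if h : ∃ u ∈ W, G.Adj v u then m h.choose v (D.c ω h.choose) else ρ
  have hrem : ∀ ω ρ v u i, v ∈ F → u ∈ W → G.Adj u v → Q u v (D.c ω u) i → i = rem ω ρ v := by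
    intro ω ρ v u i hv hu ha hq
    have h : ∃ u ∈ W, G.Adj v u := ⟨u, hu, ha.symm⟩
    have he : h.choose = u := h1 v hv _ h.choose_spec.1 _ hu h.choose_spec.2 ha.symm
    simp only [rem, dif_pos h]
    rw [he]
    exact (hm u v _ _ hq).symm
  -- the two colourings of the forest
  have hex : ∀ ω ρ, ∃ c : Fin (2 ^ 1) → F → Fin 3,
      (∀ i (v : F), c i v ∈ (Finset.univ.erase (rem ω ρ v) : Finset (Fin 3))) ∧
      (∀ v : F, Function.Injective (fun i => c i v)) ∧
      ∀ (t : Fin 1) i (u v : F), (G.induce F).Adj u v → ¬ Q u v (c i u) (c i v) := by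
    intro ω ρ
    exact Pool.Agent.Helper12.LP.exists_packing (V := F) (C := Fin 3) (fun u v => Q u v)
      (fun u v i j h => hs _ _ _ _ h) (fun u v i j j' h h' => hQ _ _ _ _ _ h h') 1
      (fun _ => G.induce F) (fun _ => hF) (fun v => Finset.univ.erase (rem ω ρ v))
      (fun v => by rw [Finset.card_erase_of_mem (Finset.mem_univ _)]; simp)
  choose col hcol1 hcol2 hcol3 using hex
  let c' : D.Ω × Fin 3 × Fin (2 ^ 1) → V → Fin 3 := fun q v =>
    if h : v ∈ F then col q.1 q.2.1 q.2.2 ⟨v, h⟩ else D.c q.1 v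
  have hcF : ∀ q v (h : v ∈ F), c' q v = col q.1 q.2.1 q.2.2 ⟨v, h⟩ := by
    intro q v h; simp only [c', dif_pos h]
  have hcW : ∀ q v, v ∈ W → c' q v = D.c q.1 v := by
    intro q v h
    have : v ∉ F := fun h' => hFW v h' h
    simp only [c', dif_neg this]
  have hcard2 : (Finset.univ : Finset (Fin (2 ^ 1))).card = 2 := by simp
  have hWFp : ∀ q u v, D.p q.1 ≠ 0 → u ∈ W → v ∈ F → G.Adj u v → ¬ Q u v (c' q u) (c' q v) := by
    intro q u v _ hu hv ha hq
    rw [hcW q u hu, hcF q v hv] at hq
    have h2 := hrem q.1 q.2.1 v u _ hv hu ha hq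
    have h3 := hcol1 q.1 q.2.1 q.2.2 ⟨v, hv⟩
    rw [h2] at h3
    exact (Finset.ne_of_mem_erase h3) rfl
  refine ⟨⟨D.Ω × Fin 3 × Fin (2 ^ 1), inferInstance, fun q => D.p q.1 / 6, c', ?_, ?_, ?_, ?_⟩⟩
  · intro q; exact div_nonneg (D.pos _) (by norm_num)
  · rw [Fintype.sum_prod_type]
    simp only [Finset.sum_const, nsmul_eq_mul, Finset.card_univ, Fintype.card_prod,
      Fintype.card_fin]
    rw [← Finset.mul_sum, ← Finset.sum_div, D.one]
    norm_num
  · intro q u v hp hu hv ha
    have hp' : D.p q.1 ≠ 0 := fun h => hp (by simp [h])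
    rcases hu with hu | hu
    · rcases hv with hv | hv
      · rw [hcW q u hu, hcW q v hv]
        exact D.proper _ _ _ hp' hu hv ha
      · exact hWFp q u v hp' hu hv ha
    · rcases hv with hv | hv
      · intro hq
        exact hWFp q v u hp' hv hu ha.symm (hs _ _ _ _ hq)
      · rw [hcF q u hu, hcF q v hv]
        exact hcol3 q.1 q.2.1 0 q.2.2 ⟨u, hu⟩ ⟨v, hv⟩ ha
  · intro v hv y
    rw [Fintype.sum_prod_type]
    rcases hv with hv | hv
    · have e1 : ∀ ω, ∑ s : Fin 3 × Fin (2 ^ 1), D.p ω / 6 * ind (c' (ω, s) v = y) =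
          D.p ω * ind (D.c ω v = y) := by
        intro ω
        have : ∀ s : Fin 3 × Fin (2 ^ 1), D.p ω / 6 * ind (c' (ω, s) v = y) =
            D.p ω / 6 * ind (D.c ω v = y) := by
          intro s
          rw [hcW (ω, s) v hv]
        simp only [this]
        rw [Finset.sum_const]
        simp only [nsmul_eq_mul, Finset.card_univ, Fintype.card_prod, Fintype.card_fin]
        push_cast
        ring
      simp only [e1]
      exact D.unif v hv y
    · -- the sum over the two colourings
      have e2 : ∀ ω ρ, ∑ i : Fin (2 ^ 1), ind (c' (ω, ρ, i) v = y) =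
          1 - ind (rem ω ρ v = y) := by
        intro ω ρ
        have hc : ∀ i, c' (ω, ρ, i) v = col ω ρ i ⟨v, hv⟩ := fun i => hcF (ω, ρ, i) v hv
        simp only [hc]
        have himg : Finset.univ.image (fun i => col ω ρ i ⟨v, hv⟩) =
            (Finset.univ.erase (rem ω ρ v) : Finset (Fin 3)) := by
          apply Finset.eq_of_subset_of_card_le
          · intro z hz
            obtain ⟨i, _, rfl⟩ := Finset.mem_image.mp hz
            exact hcol1 ω ρ i ⟨v, hv⟩
          · rw [Finset.card_image_of_injective _ (hcol2 ω ρ ⟨v, hv⟩),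
              Finset.card_erase_of_mem (Finset.mem_univ _)]
            simp
        have e3 : ∑ i : Fin (2 ^ 1), ind (col ω ρ i ⟨v, hv⟩ = y) =
            ∑ z ∈ (Finset.univ.erase (rem ω ρ v) : Finset (Fin 3)), ind (z = y) := by
          rw [← himg, Finset.sum_image]
          intro i _ j _ h
          exact hcol2 ω ρ ⟨v, hv⟩ h
        rw [e3]
        have e4 : ∑ z : Fin 3, ind (z = y) = 1 := by
          rw [Finset.sum_eq_single y]
          · exact ind_pos rfl
          · intro b _ hb; exact ind_neg hb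
          · intro h; exact absurd (Finset.mem_univ y) h
        have e5 := Finset.add_sum_erase (Finset.univ : Finset (Fin 3)) (fun z => ind (z = y))
          (Finset.mem_univ (rem ω ρ v))
        rw [e4] at e5
        linarith
      have e6 : ∀ ω, ∑ s : Fin 3 × Fin (2 ^ 1), D.p ω / 6 * ind (c' (ω, s) v = y) =
          ∑ ρ : Fin 3, D.p ω / 6 * (1 - ind (rem ω ρ v = y)) := by
        intro ω
        rw [Fintype.sum_prod_type]
        refine Finset.sum_congr rfl fun ρ _ => ?_
        rw [← Finset.mul_sum, e2]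
      simp only [e6]
      by_cases h : ∃ u ∈ W, G.Adj v u
      · have hr : ∀ ω ρ, rem ω ρ v = m h.choose v (D.c ω h.choose) := by
          intro ω ρ; simp only [rem, dif_pos h]
        have e7 : ∀ ω, ∑ ρ : Fin 3, D.p ω / 6 * (1 - ind (rem ω ρ v = y)) =
            1 / 2 * D.p ω - 1 / 2 * (D.p ω * ind (D.c ω h.choose = (m h.choose v).symm y)) := by
          intro ω
          have : ∀ ρ : Fin 3, D.p ω / 6 * (1 - ind (rem ω ρ v = y)) =
              D.p ω / 6 * (1 - ind (D.c ω h.choose = (m h.choose v).symm y)) := by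
            intro ρ
            rw [hr]
            congr 2
            apply ind_congr
            rw [Equiv.eq_symm_apply]
          simp only [this]
          rw [Finset.sum_const]
          simp only [nsmul_eq_mul, Finset.card_univ, Fintype.card_fin]
          push_cast
          ring
        simp only [e7]
        rw [Finset.sum_sub_distrib, ← Finset.mul_sum, ← Finset.mul_sum, D.one,
          D.unif _ h.choose_spec.1]
        norm_num
      · have hr : ∀ ω ρ, rem ω ρ v = ρ := by
          intro ω ρ; simp only [rem, dif_neg h]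
        have e8 : ∀ ω, ∑ ρ : Fin 3, D.p ω / 6 * (1 - ind (rem ω ρ v = y)) = D.p ω * (1 / 3) := by
          intro ω
          simp only [hr]
          rw [← Finset.mul_sum, Finset.sum_sub_distrib]
          have e4 : ∑ z : Fin 3, ind (z = y) = 1 := by
            rw [Finset.sum_eq_single y]
            · exact ind_pos rfl
            · intro b _ hb; exact ind_neg hb
            · intro h; exact absurd (Finset.mem_univ y) h
          rw [e4]
          simp only [Finset.sum_const, nsmul_eq_mul, Finset.card_univ, Fintype.card_fin]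
          push_cast
          ring
        simp only [e8]
        rw [← Finset.sum_mul, D.one, one_mul]

end PLaw

end Pool.Agent.Helper12.QD
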