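import Mathlib
import Pool.Agent.Helper12.QD.Layer

set_option autoImplicit false

/-! # Three quadrants theorem: correspondence covers and lists of colours -/

namespace Pool.Agent.Helper12.QD

open Finset

variable {n : ℕ}

/-- the base layer: three quadrants -/
theorem base_law (G : SimpleGraph (Fin n)) (x t : Fin n → ℝ) (ℓ : Fin n → ℕ)
    (hne : ∀ u v, G.Adj u v → ℓ u = 0 → ℓ v = 0 → x u ≠ x v ∧ t u ≠ t v)
    (hq : ∀ v a b, G.Adj v a → G.Adj v b → a ≠ b → ℓ v = 0 → ℓ a = 0 → ℓ b = 0 →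
      (x a < x v ↔ x b < x v) → (t a < t v ↔ t b < t v) → x v < x a ∧ t v < t a)
    (Q : Fin n → Fin n → Fin 3 → Fin 3 → Prop) (hs : ∀ u v i j, Q u v i j → Q v u j i)
    (hQ : ∀ u v i j j', Q u v i j → Q u v i j' → j = j') :
    Nonempty (PLaw G Q {v | ℓ v = 0}) := by
  classical
  -- injective coordinates
  let X : Fin n → ℝ ×ₗ Fin n := fun v => toLex (x v, v)
  have hX : Function.Injective X := by
    intro u v h
    have := congrArg (fun z : ℝ ×ₗ Fin n => (ofLex z).2) h
    exact this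
  let T : Fin n → ℝ ×ₗ Fin n := fun v => toLex (t v, v)
  have hT : Function.Injective T := by
    intro u v h
    have := congrArg (fun z : ℝ ×ₗ Fin n => (ofLex z).2) h
    exact this
  let r : Fin n → ℕ := fun v => (Finset.univ.filter fun u => T u < T v).card
  have hrT : ∀ u v, T u < T v → r u < r v := by
    intro u v h
    apply Finset.card_lt_card
    refine ⟨?_, ?_⟩
    · intro w hw
      rw [Finset.mem_filter] at hw ⊢
      exact ⟨Finset.mem_univ _, hw.2.trans h⟩
    · intro hsub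
      have : u ∈ Finset.univ.filter fun w => T w < T u :=
        hsub (Finset.mem_filter.mpr ⟨Finset.mem_univ _, h⟩)
      exact lt_irrefl _ (Finset.mem_filter.mp this).2
  have hr : Function.Injective r := by
    intro u v h
    by_contra hne'
    rcases lt_or_gt_of_ne (fun h' => hne' (hT h') : T u ≠ T v) with h1 | h1
    · have := hrT _ _ h1; omega
    · have := hrT _ _ h1; omega
  let G0 : SimpleGraph (Fin n) :=
    { Adj := fun u v => G.Adj u v ∧ ℓ u = 0 ∧ ℓ v = 0
      symm := ⟨fun u v h => ⟨h.1.symm, h.2.2, h.2.1⟩⟩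
      loopless := ⟨fun v h => h.1.ne rfl⟩ }
  have hXx : ∀ u v, G0.Adj u v → X u < X v → x u < x v := by
    intro u v ha h
    rcases Prod.Lex.toLex_lt_toLex.mp h with h1 | h1
    · exact h1
    · exact absurd h1.1 (hne u v ha.1 ha.2.1 ha.2.2).1
  have hTt : ∀ u v, G0.Adj u v → r u < r v → t u < t v := by
    intro u v ha h
    have h1 : T u < T v := by
      by_contra hcon
      rcases (not_lt.mp hcon).eq_or_lt with h2 | h2
      · have := hT h2
        rw [this] at h
        exact lt_irrefl _ h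
      · have := hrT _ _ h2; omega
    rcases Prod.Lex.toLex_lt_toLex.mp h1 with h2 | h2
    · exact h2
    · exact absurd h2.1 (hne u v ha.1 ha.2.1 ha.2.2).2
  -- the permutations
  have hQ' : ∀ u v i i' j, Q u v i j → Q u v i' j → i = i' := fun u v i i' j h h' =>
    hQ v u j i i' (hs _ _ _ _ h) (hs _ _ _ _ h')
  have hm : ∀ u v, ∃ σ : Equiv.Perm (Fin 3), ∀ i j, Q u v i j → σ i = j := fun u v =>
    exists_perm (Q u v) (hQ u v) (hQ' u v)
  choose m hm using hm
  obtain ⟨D⟩ := QLaw.exists_law G0 X hX r hr m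
    (fun v a b h1 h2 h3 h4 h5 h6 => by
      by_contra hab
      have e1 := hTt _ _ h1 h3
      have e2 := hTt _ _ h2 h4
      have e3 := hXx _ _ h1 h5
      have e4 := hXx _ _ h2 h6
      have := hq v a b h1.1.symm h2.1.symm hab h1.2.2 h1.2.1 h2.2.1
        (by simp only [e3, e4]) (by simp only [e1, e2])
      exact absurd this.1 (not_lt.2 e3.le))
    (fun v a b h1 h2 h3 h4 h5 h6 => by
      by_contra hab
      have e1 := hTt _ _ h1 h3
      have e2 := hTt _ _ h2 h4
      have e3 := hXx _ _ h1.symm h5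
      have e4 := hXx _ _ h2.symm h6
      have := hq v a b h1.1.symm h2.1.symm hab h1.2.2 h1.2.1 h2.2.1
        (by simp only [not_lt.2 e3.le, not_lt.2 e4.le]) (by simp only [e1, e2])
      exact absurd this.2 (not_lt.2 e1.le))
    (fun u v w h1 h2 h3 h4 h5 h6 => by
      by_contra hab
      have e1 := hTt _ _ h1 h3
      have e2 := hTt _ _ h2 h4
      have e3 := hXx _ _ h1.symm h5
      have e4 := hXx _ _ h2.symm h6
      have := hq u v w h1.1 h2.1 hab h1.2.1 h1.2.2 h2.2.2
        (by simp only [e3, e4]) (by simp only [not_lt.2 e1.le, not_lt.2 e2.le])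
      exact absurd this.1 (not_lt.2 e3.le)) n
  have hk : ∀ v, r v < n := by
    intro v
    have h1 : r v < (Finset.univ : Finset (Fin n)).card := by
      apply Finset.card_lt_card
      refine ⟨Finset.filter_subset _ _, ?_⟩
      intro hsub
      have := hsub (Finset.mem_univ v)
      exact lt_irrefl _ (Finset.mem_filter.mp this).2
    simpa using h1
  refine ⟨⟨D.Ω, D.fin, D.p, D.c, D.pos, D.one, ?_, fun v _ y => D.unif v (hk v) y⟩⟩
  intro ω u v hp hu hv ha
  have hadj : G0.Adj u v := ⟨ha, hu, hv⟩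
  have hruv : r u ≠ r v := fun h => ha.ne (hr h)
  rcases lt_or_gt_of_ne hruv with h | h
  · intro hq'
    exact D.proper ω u v hp hadj h (hk v) (hm u v _ _ hq').symm
  · intro hq'
    exact D.proper ω v u hp hadj.symm h (hk u) (hm v u _ _ (hs _ _ _ _ hq')).symm

/-- **Three quadrants theorem with forest layers.** -/
theorem exists_packing (G : SimpleGraph (Fin n)) (x t : Fin n → ℝ) (ℓ : Fin n → ℕ)
    (hne : ∀ u v, G.Adj u v → ℓ u = 0 → ℓ v = 0 → x u ≠ x v ∧ t u ≠ t v)
    (hq : ∀ v a b, G.Adj v a → G.Adj v b → a ≠ b → ℓ v = 0 → ℓ a = 0 → ℓ b = 0 →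
      (x a < x v ↔ x b < x v) → (t a < t v ↔ t b < t v) → x v < x a ∧ t v < t a)
    (hf : ∀ j, 1 ≤ j → (G.induce {v | ℓ v = j}).IsAcyclic)
    (h1 : ∀ v a b, G.Adj v a → G.Adj v b → ℓ a < ℓ v → ℓ b < ℓ v → a = b)
    (R : Fin n → Fin n → ℕ → ℕ → Prop) (hRs : ∀ u v a b, R u v a b → R v u b a)
    (hR : ∀ u v a b b', R u v a b → R u v a b' → b = b')
    (L : Fin n → Finset ℕ) (hL : ∀ v, (L v).card = 3) :
    ∃ (S : Finset (Fin n → ℕ)) (w : (Fin n → ℕ) → ℝ),
      (∀ c ∈ S, 0 ≤ w c ∧ (∀ v, c v ∈ L v) ∧ ∀ u v, G.Adj u v → ¬ R u v (c u) (c v)) ∧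
      ∑ c ∈ S, w c = 1 ∧
      ∀ v, ∀ y ∈ L v, ∑ c ∈ S.filter (fun c => c v = y), w c = 1 / 3 := by
  classical
  -- labels
  have hcard : ∀ v, Fintype.card (Fin 3) = Fintype.card {x // x ∈ L v} := by
    intro v; rw [Fintype.card_coe, hL, Fintype.card_fin]
  let e : ∀ v, Fin 3 ≃ {x // x ∈ L v} := fun v => Fintype.equivOfCardEq (hcard v)
  let Q : Fin n → Fin n → Fin 3 → Fin 3 → Prop := fun u v i j => R u v (e u i : ℕ) (e v j : ℕ)
  have hs : ∀ u v i j, Q u v i j → Q v u j i := fun u v i j h => hRs _ _ _ _ h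
  have hQ : ∀ u v i j j', Q u v i j → Q u v i j' → j = j' := fun u v i j j' h h' =>
    (e v).injective (Subtype.ext (hR _ _ _ _ _ h h'))
  have hlaw : ∀ k, Nonempty (PLaw G Q {v | ℓ v ≤ k}) := by
    intro k
    induction k with
    | zero =>
      have h0 : {v | ℓ v ≤ 0} = {v | ℓ v = 0} := by
        ext v; simp
      rw [h0]
      exact base_law G x t ℓ hne hq Q hs hQ
    | succ k ih =>
      obtain ⟨D⟩ := ih
      have hu : {v | ℓ v ≤ k + 1} = {v | ℓ v ≤ k} ∪ {v | ℓ v = k + 1} := by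
        ext v
        simp only [Set.mem_ofPred_eq, Set.mem_union]
        omega
      rw [hu]
      refine D.add_forest hs hQ {v | ℓ v = k + 1} ?_ (hf (k + 1) (by omega)) ?_
      · intro v hv hv'
        simp only [Set.mem_ofPred_eq] at hv hv'
        omega
      · intro v hv a ha b hb hva hvb
        simp only [Set.mem_ofPred_eq] at hv ha hb
        exact h1 v a b hva hvb (by omega) (by omega)
  obtain ⟨D⟩ := hlaw (Finset.univ.sup ℓ)
  have hk : ∀ v, v ∈ {v | ℓ v ≤ Finset.univ.sup ℓ} := by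
    intro v
    rw [Set.mem_ofPred_eq]
    exact Finset.le_sup (Finset.mem_univ v)
  let C : D.Ω → Fin n → ℕ := fun ω v => (e v (D.c ω v) : ℕ)
  have hCmem : ∀ ω v, C ω v ∈ L v := fun ω v => (e v (D.c ω v)).2
  have hCp : ∀ ω u v, D.p ω ≠ 0 → G.Adj u v → ¬ R u v (C ω u) (C ω v) := fun ω u v hp ha =>
    D.proper ω u v hp (hk u) (hk v) ha
  have hCu : ∀ v, ∀ y ∈ L v, ∑ ω, (if C ω v = y then D.p ω else 0) = 1 / 3 := by
    intro v y hy
    rw [← D.unif v (hk v) ((e v).symm ⟨y, hy⟩)]
    refine Finset.sum_congr rfl fun ω _ => ?_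
    by_cases h : C ω v = y
    · rw [if_pos h, ind_pos, mul_one]
      rw [Equiv.eq_symm_apply]
      exact Subtype.ext h
    · rw [if_neg h, ind_neg, mul_zero]
      intro h'
      apply h
      rw [Equiv.eq_symm_apply] at h'
      simp only [C]
      rw [h']
  set S : Finset (Fin n → ℕ) := (Finset.univ.filter fun ω => D.p ω ≠ 0).image C with hS
  have key : ∀ (P : (Fin n → ℕ) → Prop) [DecidablePred P],
      ∑ c ∈ S.filter P, ∑ ω, (if C ω = c then D.p ω else 0) =
        ∑ ω, (if P (C ω) then D.p ω else 0) := by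
    intro P _
    rw [Finset.sum_comm]
    refine Finset.sum_congr rfl fun ω _ => ?_
    rw [Finset.sum_ite_eq (S.filter P) (C ω)]
    by_cases hP : P (C ω)
    · by_cases hp : D.p ω = 0
      · simp [hp]
      · rw [if_pos, if_pos hP]
        rw [Finset.mem_filter]
        refine ⟨?_, hP⟩
        rw [hS, Finset.mem_image]
        exact ⟨ω, by simp [hp], rfl⟩
    · rw [if_neg hP, if_neg]
      intro h
      exact hP (Finset.mem_filter.mp h).2
  refine ⟨S, fun c => ∑ ω, (if C ω = c then D.p ω else 0), ?_, ?_, ?_⟩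
  · intro c hc
    rw [hS, Finset.mem_image] at hc
    obtain ⟨ω, hω, rfl⟩ := hc
    have hp : D.p ω ≠ 0 := by simpa using hω
    refine ⟨?_, ?_, ?_⟩
    · refine Finset.sum_nonneg fun ω' _ => ?_
      split_ifs
      · exact D.pos _
      · exact le_rfl
    · intro v; exact hCmem ω v
    · intro u v huv; exact hCp ω u v hp huv
  · have := key (fun _ => True)
    simp only [if_true, D.one, Finset.filter_true] at this
    exact this
  · intro v y hy
    have := key (fun c => c v = y)
    rw [this]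
    exact hCu v y hy

end Pool.Agent.Helper12.QD
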