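import Mathlib
import Pool.Agent.Helper12.QD.Final

set_option autoImplicit false

/-! # Three quadrants theorem: subgraphs of the square grid -/

namespace Pool.Agent.Helper12.QD

/-- Finite subgraphs of the square grid `ℤ²` satisfy the hypotheses of `exists_packing`
(coordinates `x = i - j`, `t = i + j`, all vertices in layer `0`). -/
theorem grid_packing {n : ℕ} (G : SimpleGraph (Fin n)) (P : Fin n → ℤ × ℤ)
    (hP : Function.Injective P)
    (hG : ∀ u v, G.Adj u v → |(P u).1 - (P v).1| + |(P u).2 - (P v).2| = 1)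
    (L : Fin n → Finset ℕ) (hL : ∀ v, (L v).card = 3) :
    ∃ (S : Finset (Fin n → ℕ)) (w : (Fin n → ℕ) → ℝ),
      (∀ c ∈ S, 0 ≤ w c ∧ (∀ v, c v ∈ L v) ∧ ∀ u v, G.Adj u v → c u ≠ c v) ∧
      ∑ c ∈ S, w c = 1 ∧
      ∀ v, ∀ y ∈ L v, ∑ c ∈ S.filter (fun c => c v = y), w c = 1 / 3 := by
  have hdir : ∀ p q : ℤ, |p| + |q| = 1 →
      (p = 1 ∧ q = 0) ∨ (p = -1 ∧ q = 0) ∨ (p = 0 ∧ q = 1) ∨ (p = 0 ∧ q = -1) := by
    intro p q h
    rcases abs_cases p with h1 | h1 <;> rcases abs_cases q with h2 | h2 <;> omega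
  have hxlt : ∀ u v, ((((P u).1 - (P u).2 : ℤ) : ℝ) < (((P v).1 - (P v).2 : ℤ) : ℝ)) ↔
      (P u).1 - (P u).2 < (P v).1 - (P v).2 := fun u v => Int.cast_lt
  have htlt : ∀ u v, ((((P u).1 + (P u).2 : ℤ) : ℝ) < (((P v).1 + (P v).2 : ℤ) : ℝ)) ↔
      (P u).1 + (P u).2 < (P v).1 + (P v).2 := fun u v => Int.cast_lt
  refine exists_packing G (fun v => (((P v).1 - (P v).2 : ℤ) : ℝ))
    (fun v => (((P v).1 + (P v).2 : ℤ) : ℝ)) (fun _ => 0) ?_ ?_ ?_ ?_ (fun _ _ a b => a = b)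
    (fun _ _ _ _ h => h.symm) (fun _ _ _ _ _ h h' => h.symm.trans h') L hL
  · intro u v ha _ _
    have := hdir _ _ (hG u v ha)
    constructor
    · intro h
      have h' : (P u).1 - (P u).2 = (P v).1 - (P v).2 := Int.cast_injective h
      omega
    · intro h
      have h' : (P u).1 + (P u).2 = (P v).1 + (P v).2 := Int.cast_injective h
      omega
  · intro v a b ha hb hab _ _ _ h1 h2
    simp only [hxlt, htlt] at h1 h2 ⊢
    have ea := hdir _ _ (hG v a ha)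
    have eb := hdir _ _ (hG v b hb)
    have hne : (P a).1 ≠ (P b).1 ∨ (P a).2 ≠ (P b).2 := by
      by_contra hcon
      push Not at hcon
      exact hab (hP (Prod.ext hcon.1 hcon.2))
    exfalso
    rcases ea with ⟨a1, a2⟩ | ⟨a1, a2⟩ | ⟨a1, a2⟩ | ⟨a1, a2⟩ <;>
    rcases eb with ⟨b1, b2⟩ | ⟨b1, b2⟩ | ⟨b1, b2⟩ | ⟨b1, b2⟩ <;>
    rcases hne with h3 | h3 <;> omega
  · intro j hj
    have hempty : IsEmpty {v : Fin n | (0 : ℕ) = j} := ⟨fun v => by
      have := v.2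
      simp only [Set.mem_ofPred_eq] at this
      omega⟩
    intro v
    exact hempty.elim v
  · intro v a b _ _ h _
    exact absurd h (lt_irrefl _)

end Pool.Agent.Helper12.QD
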